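import Mathlib
import Pool.Agent.Q215.TreeRank

/-!
In ZFC there is a Borel subset of the Cantor group with uncountably many pairwise disjoint
translates but no perfect family of pairwise disjoint translates.
-/

open Set

namespace Pool.Agent.Results.MP_15e54c_lc.DisjointTranslates

/-- Borel subsets of a topological space. -/
def IsBorel {X : Type} [TopologicalSpace X] (A : Set X) : Prop := @MeasurableSet X (borel X) A

/-- The translate `B + x`. -/
def translate (B : Set (ℕ → ZMod 2)) (x : ℕ → ZMod 2) : Set (ℕ → ZMod 2) :=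
  (fun b => b + x) '' B

open Q215.CI Q215.TR

/-- the type of blocks. -/
abbrev V : Type := Fin 3 → ZMod 2

/-! ### Splitting the group -/

/-- first component. -/
def kp (z : C) : C := fun n => z (4 * n)

/-- second component. -/
def lp (z : C) : ℕ → V := fun n i => z (4 * n + 1 + i.val)

/-- the element with given components. -/
def mk (k : C) (l : ℕ → V) : C := fun m =>
  if m % 4 = 0 then k (m / 4) else l (m / 4) (Fin.ofNat 3 (m % 4 - 1))

lemma kp_mk (k : C) (l : ℕ → V) : kp (mk k l) = k := by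
  funext n
  have h1 : (4 * n) % 4 = 0 := by omega
  have h2 : (4 * n) / 4 = n := by omega
  simp [kp, mk, h2]

lemma lp_mk (k : C) (l : ℕ → V) : lp (mk k l) = l := by
  funext n i
  have hi := i.2
  have h1 : (4 * n + 1 + i.val) % 4 ≠ 0 := by omega
  have h2 : (4 * n + 1 + i.val) / 4 = n := by omega
  have h3 : (4 * n + 1 + i.val) % 4 - 1 = i.val := by omega
  have h4 : Fin.ofNat 3 i.val = i := by
    ext
    simp [Fin.ofNat, Nat.mod_eq_of_lt hi]
  show (if (4 * n + 1 + i.val) % 4 = 0 then _ else _) = _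
  rw [if_neg h1, h2, h3, h4]

lemma ext_kl {x y : C} (h1 : kp x = kp y) (h2 : lp x = lp y) : x = y := by
  funext m
  have hm : m % 4 = 0 ∨ m % 4 - 1 < 3 ∧ m % 4 ≠ 0 := by omega
  rcases hm with h | ⟨h, h'⟩
  · have := congrFun h1 (m / 4)
    have e1 : 4 * (m / 4) = m := by omega
    simpa [kp, e1] using this
  · have := congrFun (congrFun h2 (m / 4)) ⟨m % 4 - 1, h⟩
    have e1 : 4 * (m / 4) + 1 + (m % 4 - 1) = m := by omega
    simpa [lp, e1] using this

lemma kp_add (x y : C) : kp (x + y) = kp x + kp y := rfl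
lemma lp_add (x y : C) : lp (x + y) = lp x + lp y := rfl

lemma kp_continuous : Continuous kp := by
  rw [continuous_pi_iff]
  exact fun n => continuous_apply _

lemma lp_continuous (n : ℕ) : Continuous (fun z => lp z n) := by
  rw [continuous_pi_iff]
  exact fun i => continuous_apply _

lemma mk_continuous {Y : Type} [TopologicalSpace Y] {k : Y → C} {l : Y → ℕ → V}
    (hk : Continuous k) (hl : ∀ n i, Continuous (fun p => l p n i)) :
    Continuous (fun p => mk (k p) (l p)) := by
  rw [continuous_pi_iff]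
  intro m
  show Continuous fun p => if m % 4 = 0 then k p (m / 4) else
    l p (m / 4) (Fin.ofNat 3 (m % 4 - 1))
  split_ifs
  · exact (continuous_apply _).comp hk
  · exact hl _ _

lemma vadd_self (a : V) : a + a = 0 := by
  funext i; exact CharTwo.add_self_eq_zero _

/-! ### The blocks -/

/-- the three basic blocks. -/
def isI (b : V) : Prop := b = ![1, 0, 0] ∨ b = ![0, 1, 0] ∨ b = ![0, 0, 1]

instance : DecidablePred isI := fun b => by unfold isI; infer_instance

lemma block (a : V) (ha : a ≠ 0) : ∃ b : V, isI b ∧ ¬ isI (b + a) ∧ b + a ≠ 0 := by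
  revert a
  decide

lemma not_isI_zero : ¬ isI 0 := by decide

lemma not_isI_one : ¬ isI ![1, 1, 1] := by decide

lemma one_ne : (![1, 1, 1] : V) ≠ 0 := by decide

/-- the first nonzero block of `l` is the `n`-th one and it is basic. -/
def Fst (l : ℕ → V) (n : ℕ) : Prop := (∀ m, m < n → l m = 0) ∧ isI (l n)

lemma Fst_unique {l : ℕ → V} {n m : ℕ} (h1 : Fst l n) (h2 : Fst l m) : n = m := by
  rcases lt_trichotomy n m with h | h | h
  · have := h1.2
    rw [h2.1 n h] at this
    exact absurd this not_isI_zero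
  · exact h
  · have := h2.2
    rw [h1.1 m h] at this
    exact absurd this not_isI_zero

/-- the information stored behind the `n`-th block. -/
def tail (l : ℕ → V) (n : ℕ) : C := fun m => l (n + 1 + m) 0

/-! ### Codes of witnesses -/

/-- the type of witnesses. -/
abbrev Y : Type := C × C × C × ((ℕ → ℕ) × (ℕ → ℕ))

/-- the `m`-th bit stored in the code of a witness. -/
def bit (p : Y) (m : ℕ) : ZMod 2 :=
  if m % 5 = 0 then p.1 (m / 5)
  else if m % 5 = 1 then p.2.1 (m / 5)
  else if m % 5 = 2 then p.2.2.1 (m / 5)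
  else if m % 5 = 3 then
    (if p.2.2.2.1 (Nat.unpair (m / 5)).1 = (Nat.unpair (m / 5)).2 then 1 else 0)
  else (if p.2.2.2.2 (Nat.unpair (m / 5)).1 = (Nat.unpair (m / 5)).2 then 1 else 0)

lemma bit_injective : Function.Injective bit := by
  rintro ⟨k, x, y, w, v⟩ ⟨k', x', y', w', v'⟩ h
  have h0 : k = k' := by
    funext i
    have h1 := congrFun h (5 * i)
    have a : (5 * i) % 5 = 0 := by omega
    have b : (5 * i) / 5 = i := by omega
    simpa [bit, a, b] using h1
  have h1 : x = x' := by
    funext i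
    have h1 := congrFun h (5 * i + 1)
    have a : (5 * i + 1) % 5 = 1 := by omega
    have b : (5 * i + 1) / 5 = i := by omega
    simpa [bit, a, b] using h1
  have h2 : y = y' := by
    funext i
    have h1 := congrFun h (5 * i + 2)
    have a : (5 * i + 2) % 5 = 2 := by omega
    have b : (5 * i + 2) / 5 = i := by omega
    simpa [bit, a, b] using h1
  have h3 : w = w' := by
    funext i
    have h1 := congrFun h (5 * (Nat.pair i (w i)) + 3)
    have a : (5 * (Nat.pair i (w i)) + 3) % 5 = 3 := by omega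
    have b : (5 * (Nat.pair i (w i)) + 3) / 5 = Nat.pair i (w i) := by omega
    simp [bit, a, b] at h1
    exact h1.symm
  have h4 : v = v' := by
    funext i
    have h1 := congrFun h (5 * (Nat.pair i (v i)) + 4)
    have a : (5 * (Nat.pair i (v i)) + 4) % 5 = 4 := by omega
    have b : (5 * (Nat.pair i (v i)) + 4) / 5 = Nat.pair i (v i) := by omega
    simp [bit, a, b] at h1
    exact h1.symm
  subst h0 h1 h2 h3 h4
  rfl

lemma bit_continuous (m : ℕ) : Continuous (fun p : Y => bit p m) := by
  have c0 : Continuous fun p : Y => p.1 := continuous_fst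
  have c1 : Continuous fun p : Y => p.2.1 := continuous_fst.comp continuous_snd
  have c2 : Continuous fun p : Y => p.2.2.1 :=
    continuous_fst.comp (continuous_snd.comp continuous_snd)
  have c3 : Continuous fun p : Y => p.2.2.2 :=
    continuous_snd.comp (continuous_snd.comp continuous_snd)
  have cn : ∀ a b : ℕ, Continuous (fun w : ℕ → ℕ => if w a = b then (1 : ZMod 2) else 0) :=
    fun a b => (continuous_of_discreteTopology (f := fun c : ℕ =>
      if c = b then (1 : ZMod 2) else 0)).comp (continuous_apply a)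
  unfold bit
  split_ifs
  · exact (continuous_apply _).comp c0
  · exact (continuous_apply _).comp c1
  · exact (continuous_apply _).comp c2
  · exact (cn _ _).comp (continuous_fst.comp c3)
  · exact (cn _ _).comp (continuous_snd.comp c3)

/-- the code of a witness. -/
def jj (p : Y) : ℕ → V := fun n => Nat.casesOn n ![1, 1, 1] fun m => ![bit p m, 0, 0]

lemma jj_zero (p : Y) : jj p 0 = ![1, 1, 1] := rfl

lemma jj_injective : Function.Injective jj := by
  intro p q h
  apply bit_injective
  funext m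
  exact congrFun (congrFun h (m + 1)) 0

lemma not_Fst_jj (p : Y) (n : ℕ) : ¬ Fst (jj p) n := by
  rintro ⟨h1, h2⟩
  rcases Nat.eq_zero_or_pos n with h | h
  · subst h
    exact not_isI_one h2
  · exact one_ne (h1 0 h)

lemma jj_continuous (n : ℕ) (i : Fin 3) : Continuous (fun p => jj p n i) := by
  cases n with
  | zero => exact continuous_const
  | succ m =>
    show Continuous fun p => (![bit p m, 0, 0] : V) i
    fin_cases i
    · exact bit_continuous m
    · exact continuous_const
    · exact continuous_const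

/-- the witness relation. -/
def WitD (p : Y) : Prop :=
  (p.1 = e p.2.1 + e p.2.2.1 ∧ p.2.1 ≠ p.2.2.1 ∧ Wit p.2.1 p.2.2.1 p.2.2.2) ∨
    p.1 ∉ range (fun q : C × C => e q.1 + e q.2)

/-- the elements with a witness. -/
def DD (k : C) : Prop := ∃ p : Y, WitD p ∧ p.1 = k

lemma not_DD_of_Gr {x y : C} (h : Gr x y) : ¬ DD (e x + e y) := by
  rintro ⟨⟨k, x', y', w⟩, hw, hk⟩
  have hxy : x ≠ y := by
    rintro rfl
    exact h.2.2 rfl
  have hk' : k = e x + e y := hk
  rcases hw with ⟨h1, h2, h3⟩ | h1
  · have h1' : k = e x' + e y' := h1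
    have h2' : x' ≠ y' := h2
    have h3' : Wit x' y' w := h3
    rw [hk'] at h1'
    have h4 : ¬ Gr x' y' := not_Gr_iff.2 ⟨w, h3'⟩
    rcases four hxy h1' with ⟨rfl, rfl⟩ | ⟨rfl, rfl⟩
    · exact h4 h
    · exact h4 h.symm
  · exact h1 ⟨(x, y), hk.symm⟩

lemma of_not_DD {k : C} (h : ¬ DD k) (hk : k ≠ 0) :
    ∃ x y, x ≠ y ∧ k = e x + e y ∧ Gr x y := by
  have h1 : k ∈ range (fun q : C × C => e q.1 + e q.2) := by
    by_contra hc
    exact h ⟨(k, 0, 0, (0, 0)), Or.inr hc, rfl⟩
  obtain ⟨⟨x, y⟩, hxy⟩ := h1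
  have hne : x ≠ y := by
    rintro rfl
    exact hk (by rw [← hxy]; exact add_self _)
  refine ⟨x, y, hne, hxy.symm, ?_⟩
  by_contra hG
  obtain ⟨w, hw⟩ := not_Gr_iff.1 hG
  exact h ⟨(k, x, y, w), Or.inl ⟨hxy.symm, hne, hw⟩, rfl⟩

/-! ### The Borel set -/

/-- the part over the basic sequences. -/
def B1 : Set C := {z | ∃ n, Fst (lp z) n ∧ kp z = tail (lp z) n}

/-- the part with first component zero. -/
def B2 : Set C := {z | (∀ n, ¬ Fst (lp z) n) ∧ kp z = 0}

/-- the part given by the witnesses. -/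
def B3 : Set C := (fun p : Y => mk p.1 (jj p)) '' {p | WitD p}

/-- the Borel set. -/
def B : Set C := B1 ∪ B2 ∪ B3

lemma borel_B : IsBorel B := by
  let _ : MeasurableSpace C := borel C
  have _ : BorelSpace C := ⟨rfl⟩
  let _ : MeasurableSpace Y := borel Y
  have _ : BorelSpace Y := ⟨rfl⟩
  have hY : PolishSpace Y := {}
  have mF : ∀ n, MeasurableSet {z : C | Fst (lp z) n} := by
    intro n
    have e1 : {z : C | Fst (lp z) n} = (⋂ m ∈ Set.Iio n, {z : C | lp z m = 0}) ∩
        ({z | lp z n = ![1, 0, 0]} ∪ ({z | lp z n = ![0, 1, 0]} ∪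
          {z | lp z n = ![0, 0, 1]})) := by
      ext z
      simp only [mem_inter_iff, mem_iInter, mem_Iio]
      rfl
    rw [e1]
    refine MeasurableSet.inter ?_ ?_
    · exact (isClosed_biInter fun m _ =>
        isClosed_eq (lp_continuous m) continuous_const).measurableSet
    · exact ((isClosed_eq (lp_continuous n) continuous_const).union
        ((isClosed_eq (lp_continuous n) continuous_const).union
          (isClosed_eq (lp_continuous n) continuous_const))).measurableSet
  have ct : ∀ n, Continuous (fun z => tail (lp z) n) := by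
    intro n
    rw [continuous_pi_iff]
    intro m
    exact (continuous_apply 0).comp (lp_continuous _)
  show MeasurableSet B
  refine (MeasurableSet.union ?_ ?_).union ?_
  · have e1 : B1 = ⋃ n, {z : C | Fst (lp z) n} ∩ {z | kp z = tail (lp z) n} := by
      ext z
      simp only [mem_iUnion]
      rfl
    rw [e1]
    exact MeasurableSet.iUnion fun n =>
      (mF n).inter (isClosed_eq kp_continuous (ct n)).measurableSet
  · have e1 : B2 = (⋂ n, {z : C | Fst (lp z) n}ᶜ) ∩ {z | kp z = 0} := by
      ext z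
      simp only [mem_inter_iff, mem_iInter]
      rfl
    rw [e1]
    exact (MeasurableSet.iInter fun n => (mF n).compl).inter
      (isClosed_eq kp_continuous continuous_const).measurableSet
  · have c0 : Continuous fun p : Y => p.1 := continuous_fst
    have c1 : Continuous fun p : Y => p.2.1 := continuous_fst.comp continuous_snd
    have c2 : Continuous fun p : Y => p.2.2.1 :=
      continuous_fst.comp (continuous_snd.comp continuous_snd)
    have c3 : Continuous fun p : Y => p.2.2.2 :=
      continuous_snd.comp (continuous_snd.comp continuous_snd)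
    have hm : MeasurableSet {p : Y | WitD p} := by
      have e1 : {p : Y | WitD p} = ({p : Y | p.1 = e p.2.1 + e p.2.2.1} ∩
          ({p : Y | p.2.1 = p.2.2.1}ᶜ ∩ {p : Y | Wit p.2.1 p.2.2.1 p.2.2.2})) ∪
          ((fun p : Y => p.1) ⁻¹' range (fun q : C × C => e q.1 + e q.2))ᶜ := rfl
      rw [e1]
      have hcl : IsClosed (range (fun q : C × C => e q.1 + e q.2)) :=
        (isCompact_range ((e_continuous.comp continuous_fst).add
          (e_continuous.comp continuous_snd))).isClosed
      refine MeasurableSet.union ((isClosed_eq c0 ((e_continuous.comp c1).add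
        (e_continuous.comp c2))).measurableSet.inter
        ((isClosed_eq c1 c2).measurableSet.compl.inter (meas_Wit c1 c2 c3))) ?_
      exact (hcl.preimage c0).measurableSet.compl
    refine hm.image_of_continuousOn_injOn (mk_continuous c0 jj_continuous).continuousOn ?_
    intro p _ q _ h
    have h' : mk p.1 (jj p) = mk q.1 (jj q) := h
    apply jj_injective
    rw [← lp_mk p.1 (jj p), h', lp_mk]

/-! ### Sums of two elements -/

lemma sum_of_ne {z : C} (hz : lp z ≠ 0) : ∃ b ∈ B, ∃ b' ∈ B, b + b' = z := by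
  classical
  obtain ⟨n, hn, hmin⟩ : ∃ n, lp z n ≠ 0 ∧ ∀ m, m < n → lp z m = 0 := by
    have hex : ∃ n, lp z n ≠ 0 := Function.ne_iff.1 hz
    exact ⟨Nat.find hex, Nat.find_spec hex, fun m hm => by
      have := Nat.find_min hex hm
      exact not_not.1 this⟩
  obtain ⟨b, hb1, hb2, hb3⟩ := block _ hn
  let t : ℕ → V := fun m => if m < n then 0 else if m = n then b else ![kp z (m - (n + 1)), 0, 0]
  have ht1 : ∀ m, m < n → t m = 0 := fun m hm => by simp [t, hm]
  have ht2 : t n = b := by simp [t]
  have ht3 : tail t n = kp z := by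
    funext m
    have h1 : ¬ n + 1 + m < n := by omega
    have h2 : n + 1 + m ≠ n := by omega
    have h3 : n + 1 + m - (n + 1) = m := by omega
    simp [tail, t, h1, h2, h3]
  refine ⟨mk (kp z) t, Or.inl (Or.inl ⟨n, ?_, ?_⟩), mk 0 (t + lp z), Or.inl (Or.inr ⟨?_, ?_⟩), ?_⟩
  · rw [lp_mk]
    exact ⟨ht1, by rw [ht2]; exact hb1⟩
  · rw [lp_mk, kp_mk, ht3]
  · rw [lp_mk]
    rintro m ⟨h1, h2⟩
    rcases lt_trichotomy m n with h | h | h
    · rw [Pi.add_apply, ht1 m h, hmin m h, add_zero] at h2
      exact not_isI_zero h2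
    · subst h
      rw [Pi.add_apply, ht2] at h2
      exact hb2 h2
    · have := h1 n h
      rw [Pi.add_apply, ht2] at this
      exact hb3 this
  · rw [kp_mk]
  · apply ext_kl
    · rw [kp_add, kp_mk, kp_mk, add_zero]
    · rw [lp_add, lp_mk, lp_mk, ← add_assoc]
      have : t + t = 0 := by
        funext m; exact vadd_self _
      rw [this, zero_add]

lemma sum_same {b b' : C} (hb : b ∈ B) (hb' : b' ∈ B) (h : lp b = lp b') :
    kp b + kp b' = 0 ∨ DD (kp b + kp b') := by
  rcases hb with (⟨n, hn, hk⟩ | ⟨hn, hk⟩) | ⟨p, hp, rfl⟩ <;>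
    rcases hb' with (⟨n', hn', hk'⟩ | ⟨hn', hk'⟩) | ⟨p', hp', rfl⟩
  · left
    rw [← h] at hn' hk'
    rw [Fst_unique hn hn'] at hk
    rw [hk, hk']; exact add_self _
  · rw [h] at hn
    exact absurd hn (hn' _)
  · exfalso
    have h' : lp b = lp (mk p'.1 (jj p')) := h
    rw [lp_mk] at h'
    rw [h'] at hn
    exact not_Fst_jj _ _ hn
  · rw [← h] at hn'
    exact absurd hn' (hn _)
  · left
    rw [hk, hk', add_zero]
  · right
    show DD (kp b + kp (mk p'.1 (jj p')))
    rw [hk, kp_mk, zero_add]
    exact ⟨p', hp', rfl⟩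
  · exfalso
    have h' : lp (mk p.1 (jj p)) = lp b' := h
    rw [lp_mk] at h'
    rw [← h'] at hn'
    exact not_Fst_jj _ _ hn'
  · right
    show DD (kp (mk p.1 (jj p)) + kp b')
    rw [hk', kp_mk, add_zero]
    exact ⟨p, hp, rfl⟩
  · left
    have h' : lp (mk p.1 (jj p)) = lp (mk p'.1 (jj p')) := h
    rw [lp_mk, lp_mk] at h'
    rw [jj_injective h']
    exact add_self _

lemma sum_of_DD {k : C} (h : DD k) : ∃ b ∈ B, ∃ b' ∈ B, b + b' = mk k 0 := by
  obtain ⟨p, hp, rfl⟩ := h
  refine ⟨mk p.1 (jj p), Or.inr ⟨p, hp, rfl⟩, mk 0 (jj p), Or.inl (Or.inr ⟨?_, ?_⟩), ?_⟩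
  · rw [lp_mk]; exact not_Fst_jj p
  · rw [kp_mk]
  · apply ext_kl
    · rw [kp_add, kp_mk, kp_mk, kp_mk, add_zero]
    · rw [lp_add, lp_mk, lp_mk, lp_mk]
      funext m; exact vadd_self _

/-- disjointness of translates. -/
lemma disjoint_iff {x y : C} : translate B x ∩ translate B y = ∅ ↔
    ¬ ∃ b ∈ B, ∃ b' ∈ B, b + b' = x + y := by
  rw [eq_empty_iff_forall_notMem]
  constructor
  · rintro h ⟨b, hb, b', hb', hs⟩
    refine h (b + x) ⟨⟨b, hb, rfl⟩, ⟨b', hb', ?_⟩⟩
    show b' + y = b + x
    have : b + b' + (b + y) = x + y + (b + y) := by rw [hs]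
    have e1 : b + b' + (b + y) = (b + b) + (b' + y) := by ring
    have e2 : x + y + (b + y) = (y + y) + (b + x) := by ring
    rw [e1, e2, add_self, add_self, zero_add, zero_add] at this
    exact this
  · rintro h z ⟨⟨b, hb, hbx⟩, ⟨b', hb', hby⟩⟩
    refine h ⟨b, hb, b', hb', ?_⟩
    have h1 : b + x = z := hbx
    have h2 : b' + y = z := hby
    have : (b + x) + (b' + y) = 0 := by rw [h1, h2, add_self]
    have e1 : (b + x) + (b' + y) = (b + b') + (x + y) := by ring
    rw [e1] at this
    exact eq_of_add_eq_zero this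

/-- the pairs with disjoint translates. -/
lemma of_disjoint {x y : C} (hxy : x ≠ y) (h : translate B x ∩ translate B y = ∅) :
    lp x = lp y ∧ ∃ u w, u ≠ w ∧ kp x + kp y = e u + e w ∧ Gr u w := by
  rw [disjoint_iff] at h
  have h1 : lp (x + y) = 0 := by
    by_contra hc
    exact h (sum_of_ne hc)
  have h1' : lp x = lp y := by
    rw [lp_add] at h1
    funext n
    have h2 := congrFun h1 n
    rw [Pi.add_apply, Pi.zero_apply] at h2
    have : lp x n + lp y n + lp y n = lp y n := by rw [h2, zero_add]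
    rwa [add_assoc, vadd_self, add_zero] at this
  have hz : mk (kp (x + y)) 0 = x + y := by
    apply ext_kl
    · rw [kp_mk]
    · rw [lp_mk, h1]
  have h2 : ¬ DD (kp (x + y)) := by
    intro hD
    apply h
    rw [← hz]
    exact sum_of_DD hD
  have h3 : kp (x + y) ≠ 0 := by
    intro h0
    apply hxy
    apply eq_of_add_eq_zero
    apply ext_kl
    · rw [h0]; rfl
    · rw [h1]; rfl
  exact ⟨h1', of_not_DD h2 h3⟩

lemma disjoint_of_Gr {u w : C} (h : Gr u w) :
    translate B (mk (e u) 0) ∩ translate B (mk (e w) 0) = ∅ := by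
  rw [disjoint_iff]
  rintro ⟨b, hb, b', hb', hs⟩
  have h1 : kp b + kp b' = e u + e w := by
    rw [← kp_add, hs, kp_add, kp_mk, kp_mk]
  have h2 : lp b = lp b' := by
    have h3 : lp b + lp b' = 0 := by
      rw [← lp_add, hs, lp_add, lp_mk, lp_mk, add_zero]
    funext n
    have h4 := congrFun h3 n
    rw [Pi.add_apply, Pi.zero_apply] at h4
    have : lp b n + lp b' n + lp b' n = lp b' n := by rw [h4, zero_add]
    rwa [add_assoc, vadd_self, add_zero] at this
  have huw : u ≠ w := by
    rintro rfl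
    exact h.2.2 rfl
  rcases sum_same hb hb' h2 with h3 | h3
  · rw [h1] at h3
    exact huw (e_injective (eq_of_add_eq_zero h3))
  · rw [h1] at h3
    exact not_DD_of_Gr h h3

/-! ### The uncountable family -/

lemma exists_clique : ∃ H : Set C, ¬ H.Countable ∧ (∀ x ∈ H, WFT x) ∧
    H.Pairwise (fun x y => rk x ≠ rk y) := by
  obtain ⟨H, hH⟩ := zorn_subset
    {H : Set C | (∀ x ∈ H, WFT x) ∧ H.Pairwise (fun x y => rk x ≠ rk y)} (by
    intro c hc hchain
    refine ⟨⋃₀ c, ⟨?_, ?_⟩, fun s hs => subset_sUnion_of_mem hs⟩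
    · rintro x ⟨s, hs, hx⟩
      exact (hc hs).1 x hx
    · exact (Set.pairwise_sUnion hchain.directedOn).2 fun a ha => (hc ha).2)
  refine ⟨H, ?_, hH.prop.1, hH.prop.2⟩
  intro hc
  -- a well-founded tree to have a nonempty list
  have hwf0 : WFT 0 := by
    by_contra hcon
    obtain ⟨f, hf⟩ := not_wft_iff.1 hcon
    obtain ⟨⟨n, hn⟩, hT⟩ := hf 0
    rw [hn] at hT
    exact absurd hT.1 (by simp)
  obtain ⟨f, hf⟩ : ∃ f : ℕ → C, insert 0 H = range f :=
    (hc.insert 0).exists_eq_range (insert_nonempty _ _)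
  have hfw : ∀ n, WFT (f n) := by
    intro n
    have : f n ∈ insert 0 H := by rw [hf]; exact ⟨n, rfl⟩
    rcases this with h | h
    · rw [h]; exact hwf0
    · exact hH.prop.1 _ h
  obtain ⟨y, hy, hlt⟩ := exists_larger f hfw
  have hlt' : ∀ x ∈ H, rk x < rk y := by
    intro x hx
    have : x ∈ range f := by rw [← hf]; exact mem_insert_of_mem _ hx
    obtain ⟨n, rfl⟩ := this
    exact hlt n
  have hyH : y ∉ H := fun h => lt_irrefl _ (hlt' y h)
  apply hyH
  refine hH.le_of_ge ⟨?_, ?_⟩ (subset_insert y H) (mem_insert y H)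
  · rintro x (rfl | hx)
    · exact hy
    · exact hH.prop.1 x hx
  · exact hH.prop.2.insert fun b hb _ => ⟨(hlt' b hb).ne', (hlt' b hb).ne⟩

/-! ### No perfect family -/

lemma perfect_uncountable {Q : Set C} (hQ : Perfect Q) (hne : Q.Nonempty) : ¬ Q.Countable := by
  intro hc
  have hcomp : CompactSpace Q := isCompact_iff_compactSpace.1 hQ.closed.isCompact
  have hnon : Nonempty Q := hne.to_subtype
  have hcount : Countable Q := hc.to_subtype
  obtain ⟨q, x, hx⟩ := nonempty_interior_of_iUnion_of_closed (f := fun q : Q => ({q} : Set Q))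
    (fun q => isClosed_singleton) (eq_univ_of_forall fun q => mem_iUnion.2 ⟨q, rfl⟩)
  have hxq : x = q := mem_singleton_iff.1 (interior_subset hx)
  subst hxq
  obtain ⟨U, hU, hUeq⟩ := isOpen_induced_iff.1 (isOpen_interior (s := ({x} : Set Q)))
  have hxU : (x : C) ∈ U := by
    have : x ∈ (Subtype.val ⁻¹' U : Set Q) := by rw [hUeq]; exact hx
    exact this
  obtain ⟨y, ⟨hyU, hyQ⟩, hyne⟩ := accPt_iff_nhds.1 (hQ.acc x.1 x.2) U (hU.mem_nhds hxU)
  have : (⟨y, hyQ⟩ : Q) ∈ interior ({x} : Set Q) := by
    rw [← hUeq]; exact hyU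
  have h2 : (⟨y, hyQ⟩ : Q) = x := mem_singleton_iff.1 (interior_subset this)
  exact hyne (congrArg Subtype.val h2)

/-- In ZFC there is a Borel set `B` in the Cantor group with uncountably many pairwise disjoint
translates, but with no perfect set of pairwise disjoint translates. -/
theorem result : ∃ B : Set (ℕ → ZMod 2), IsBorel B ∧
    (∃ H : Set (ℕ → ZMod 2), ¬ H.Countable ∧
      ∀ x ∈ H, ∀ y ∈ H, x ≠ y → translate B x ∩ translate B y = ∅) ∧
    (∀ P : Set (ℕ → ZMod 2), Perfect P → P.Nonempty →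
      ¬ ∀ x ∈ P, ∀ y ∈ P, x ≠ y → translate B x ∩ translate B y = ∅) := by
  refine ⟨B, borel_B, ?_, ?_⟩
  · obtain ⟨H, hHc, hHW, hHS⟩ := exists_clique
    have hinj : Function.Injective (fun x => mk (e x) 0) := by
      intro x y h
      apply e_injective
      rw [← kp_mk (e x) 0, ← kp_mk (e y) 0]
      exact congrArg kp h
    refine ⟨(fun x => mk (e x) 0) '' H, ?_, ?_⟩
    · intro hc
      exact hHc ((hc.preimage_of_injOn hinj.injOn).mono (subset_preimage_image _ _))
    · rintro - ⟨x, hx, rfl⟩ - ⟨y, hy, rfl⟩ hxy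
      have hne : x ≠ y := fun h => hxy (by rw [h])
      exact disjoint_of_Gr ⟨hHW x hx, hHW y hy, hHS hx hy hne⟩
  · intro P hP hne hdis
    obtain ⟨x0, hx0⟩ := hne
    -- the common second component
    have hl : ∀ x ∈ P, lp x = lp x0 := by
      intro x hx
      by_cases h : x = x0
      · rw [h]
      · exact (of_disjoint h (hdis x hx x0 hx0 h)).1
    have hrec : ∀ x ∈ P, mk (kp x) (lp x0) = x := by
      intro x hx
      apply ext_kl
      · rw [kp_mk]
      · rw [lp_mk, hl x hx]
    let P' : Set C := {k | mk k (lp x0) ∈ P}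
    have hP' : Perfect P' := by
      refine ⟨?_, ?_⟩
      · have hcm : Continuous (fun k : C => mk k (lp x0)) :=
          mk_continuous continuous_id (fun n i => continuous_const)
        exact hP.closed.preimage hcm
      · intro k hk
        rw [accPt_iff_nhds]
        intro U hU
        have hU' : kp ⁻¹' U ∈ nhds (mk k (lp x0)) := by
          apply kp_continuous.continuousAt.preimage_mem_nhds
          rw [kp_mk]; exact hU
        obtain ⟨y, ⟨hyU, hyP⟩, hyne⟩ := accPt_iff_nhds.1 (hP.acc _ hk) _ hU'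
        refine ⟨kp y, ⟨hyU, ?_⟩, ?_⟩
        · show mk (kp y) (lp x0) ∈ P
          rw [hrec y hyP]; exact hyP
        · intro h
          apply hyne
          rw [← hrec y hyP, h]
    have hP'ne : P'.Nonempty := ⟨kp x0, by show mk (kp x0) (lp x0) ∈ P; rw [hrec x0 hx0]; exact hx0⟩
    have hP'key : ∀ k ∈ P', ∀ k' ∈ P', k ≠ k' → ∃ u w, u ≠ w ∧ k + k' = e u + e w ∧ Gr u w := by
      intro k hk k' hk' hkk
      have hne : mk k (lp x0) ≠ mk k' (lp x0) := fun h => hkk (by
        rw [← kp_mk k (lp x0), h, kp_mk])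
      have := (of_disjoint hne (hdis _ hk _ hk' hne)).2
      rwa [kp_mk, kp_mk] at this
    have hinf : P'.Infinite := by
      intro hfin
      exact perfect_uncountable hP' hP'ne hfin.countable
    obtain ⟨t, ht⟩ := star hinf (fun x hx y hy hxy => by
      obtain ⟨u, w, h1, h2, -⟩ := hP'key x hx y hy hxy
      exact ⟨u, w, h1, h2⟩)
    obtain ⟨hQ, hQne⟩ := perfect_indices hP' hP'ne t ht
    set Q := {p | t + e p ∈ P'} with hQdef
    have hpair : ∀ p ∈ Q, ∀ q ∈ Q, p ≠ q → Gr p q := by
      intro p hp q hq hpq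
      obtain ⟨u, w, -, h, hG⟩ := hP'key _ hp _ hq
        (fun h => hpq (e_injective (add_left_cancel h)))
      have hsum : t + e p + (t + e q) = e p + e q := by
        have : t + e p + (t + e q) = (t + t) + (e p + e q) := by ring
        rw [this, add_self, zero_add]
      rw [hsum] at h
      rcases four hpq h with ⟨rfl, rfl⟩ | ⟨rfl, rfl⟩
      · exact hG
      · exact hG.symm
    have hWF : ∀ p ∈ Q, WFT p := by
      intro p hp
      obtain ⟨q, ⟨-, hq⟩, hqp⟩ := accPt_iff_nhds.1 (hQ.acc p hp) _ Filter.univ_mem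
      exact (hpair p hp q hq hqp.symm).1
    have hcr := countable_ranks hQ.closed hWF
    refine perfect_uncountable hQ hQne (Set.countable_of_injective_of_countable_image ?_ hcr)
    intro p hp q hq hpq
    by_contra hne
    exact (hpair p hp q hq hne).2.2 hpq

end Pool.Agent.Results.MP_15e54c_lc.DisjointTranslates
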